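import Pool.Agent.Lib.MP_4583ef_ag.Dvr

/-!
# The discrete valuation ring: the data needed for the counterexample
-/

namespace Pool.Agent.Lib.MP4583ef

open PowerSeries

theorem fifth_root_unique {E : Type*} [CommRing E] [IsDomain E] [CharP E 5] {a b : E}
    (h : a ^ 5 = b ^ 5) : a = b := by
  have h1 : (a - b) ^ 5 = 0 := by
    rw [sub_pow_char, h, sub_self]
  exact sub_eq_zero.1 (pow_eq_zero_iff (by norm_num) |>.1 h1)

theorem dvd_of_root {A S F E : Type*} [CommRing A] [IsDomain A] [CommRing S] [IsDomain S]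
    [Field F] [Algebra A F] [IsFractionRing A F] [Field E] [Algebra S E] [IsFractionRing S E]
    (j : A →+* S) (hj : Function.Injective j) (u : S) (U : A) (hU : j U = u ^ 5)
    (hirr : Irreducible (Polynomial.X ^ 5 - Polynomial.C (algebraMap A F U)))
    (g : Polynomial A) (hg : g.eval₂ j u = 0) :
    (Polynomial.X ^ 5 - Polynomial.C U) ∣ g := by
  have hm : (Polynomial.X ^ 5 - Polynomial.C U).Monic :=
    Polynomial.monic_X_pow_sub_C _ (by norm_num)
  rw [← Polynomial.map_dvd_map (algebraMap A F) (IsFractionRing.injective _ _) hm]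
  by_contra hcon
  rw [Polynomial.map_sub, Polynomial.map_pow, Polynomial.map_X, Polynomial.map_C] at hcon
  have hcop := (hirr.coprime_iff_not_dvd).2 hcon
  obtain ⟨α, β, hαβ⟩ := hcop
  have hι : Function.Injective ((algebraMap S E).comp j) :=
    (IsFractionRing.injective S E).comp hj
  obtain ⟨ψ, hψ⟩ : ∃ ψ : F →+* E, ψ.comp (algebraMap A F) = (algebraMap S E).comp j :=
    ⟨IsFractionRing.lift hι, RingHom.ext fun x => IsFractionRing.lift_algebraMap hι x⟩
  have h1 := congrArg (Polynomial.eval₂ ψ (algebraMap S E u)) hαβ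
  rw [Polynomial.eval₂_add, Polynomial.eval₂_mul, Polynomial.eval₂_mul, Polynomial.eval₂_one] at h1
  have h2 : Polynomial.eval₂ ψ (algebraMap S E u)
      (Polynomial.X ^ 5 - Polynomial.C (algebraMap A F U)) = 0 := by
    rw [Polynomial.eval₂_sub, Polynomial.eval₂_pow, Polynomial.eval₂_X, Polynomial.eval₂_C]
    have h3 : ψ (algebraMap A F U) = algebraMap S E (j U) := by
      rw [← RingHom.comp_apply, hψ]; rfl
    rw [h3, hU, map_pow, sub_self]
  have h4 : Polynomial.eval₂ ψ (algebraMap S E u) (g.map (algebraMap A F)) = 0 := by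
    rw [Polynomial.eval₂_map, hψ]
    have h5 := congrArg (algebraMap S E) hg
    rw [Polynomial.hom_eval₂, map_zero] at h5
    exact h5
  rw [h2, h4, mul_zero, mul_zero, add_zero] at h1
  exact zero_ne_one h1

instance charP_powerSeries : CharP (PowerSeries (ZMod 5)) 5 :=
  charP_of_injective_ringHom (f := (C : ZMod 5 →+* PowerSeries (ZMod 5))) C_injective 5

section

variable (u : PowerSeries (ZMod 5)) (hu : Transcendental (Polynomial (ZMod 5)) u)

/-- The discrete valuation ring. -/
noncomputable abbrev ringA : Subring (PowerSeries (ZMod 5)) := fracInter (ringB u)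

theorem ringA_closed (a b : PowerSeries (ZMod 5)) (hb : b ∈ ringA u) (hb0 : b ≠ 0)
    (hab : a * b ∈ ringA u) : a ∈ ringA u := fracInter_closed hb hb0 hab

theorem coe_mem_ringA (P : Polynomial (ZMod 5)) : (P : PowerSeries (ZMod 5)) ∈ ringA u :=
  le_fracInter _ (coe_mem_ringB u P)

theorem X_mem_ringA : (X : PowerSeries (ZMod 5)) ∈ ringA u := by
  simpa using coe_mem_ringA u Polynomial.X

theorem pow_mem_ringA : u ^ 5 ∈ ringA u :=
  le_fracInter _ (mem_ringB.2 ⟨Polynomial.X, by simp⟩)

theorem dvd_iff_coe (n : ℕ) (x : ringA u) :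
    (⟨X, X_mem_ringA u⟩ : ringA u) ^ n ∣ x ↔ (X : PowerSeries (ZMod 5)) ^ n ∣ x := by
  constructor
  · rintro ⟨c, hc⟩
    exact ⟨c, by rw [hc]; rfl⟩
  · rintro ⟨c, hc⟩
    have h1 : c ∈ ringA u := by
      refine ringA_closed u c (X ^ n) ((ringA u).pow_mem (X_mem_ringA u) n)
        (pow_ne_zero _ X_ne_zero) ?_
      rw [mul_comm, ← hc]
      exact x.2
    exact ⟨⟨c, h1⟩, Subtype.ext hc⟩

instance charP_ringA : CharP (ringA u) 5 :=
  ⟨fun n => by
    rw [← CharP.cast_eq_zero_iff (PowerSeries (ZMod 5)) 5 n]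
    constructor
    · intro h
      have := congrArg (ringA u).subtype h
      simpa using this
    · intro h
      apply Subtype.val_injective
      simpa using h⟩

instance dvr_ringA : IsDiscreteValuationRing (ringA u) :=
  isDiscreteValuationRing _ (X_mem_ringA u) (ringA_closed u)

theorem dvd_sub_trunc (n : ℕ) : (X : PowerSeries (ZMod 5)) ^ n ∣ u - (trunc n u) := by
  rw [X_pow_dvd_iff]
  intro m hm
  simp [coeff_trunc, hm]

/-- The approximations of `u`. -/
noncomputable def approxA (N : ℕ) : ringA u := ⟨trunc (4 * N + 1) u, coe_mem_ringA u _⟩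

include hu in
theorem irreducible_pow_sub :
    Irreducible (Polynomial.X ^ 5 - Polynomial.C (algebraMap (ringA u) (FractionRing (ringA u))
      ⟨u ^ 5, pow_mem_ringA u⟩)) := by
  apply X_pow_sub_C_irreducible_of_prime (by norm_num)
  intro b hb
  obtain ⟨a, c, hc, rfl⟩ := IsFractionRing.div_surjective (A := ringA u) b
  have hc0 : c ≠ 0 := nonZeroDivisors.ne_zero hc
  have hc1 : algebraMap (ringA u) (FractionRing (ringA u)) c ≠ 0 := by
    simpa using hc0
  rw [div_pow, div_eq_iff (pow_ne_zero _ hc1), ← map_pow, ← map_pow, ← map_mul] at hb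
  have h1 := IsFractionRing.injective (ringA u) (FractionRing (ringA u)) hb
  have h2 : (a : PowerSeries (ZMod 5)) ^ 5 = (u * c) ^ 5 := by
    rw [mul_pow]
    exact congrArg Subtype.val h1
  have h3 := fifth_root_unique h2
  apply not_mem_fracInter hu
  refine ringA_closed u u c c.2 (fun h => hc0 (Subtype.ext h)) ?_
  rw [← h3]
  exact a.2

include hu in
theorem dvd_of_eval₂_eq_zero (g : Polynomial (ringA u))
    (hg : g.eval₂ (ringA u).subtype u = 0) :
    (Polynomial.X ^ 5 - Polynomial.C (⟨u ^ 5, pow_mem_ringA u⟩ : ringA u)) ∣ g :=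
  dvd_of_root (E := FractionRing (PowerSeries (ZMod 5))) (ringA u).subtype
    Subtype.val_injective u _ rfl (irreducible_pow_sub u hu) g hg

/-- The data. -/
noncomputable def dataA (hu0 : constantCoeff u = 0) : Data (ringA u) where
  t := ⟨X, X_mem_ringA u⟩
  U := ⟨u ^ 5, pow_mem_ringA u⟩
  a := approxA u
  irr := irreducible_X _ (X_mem_ringA u) (ringA_closed u)
  dvd_U := by
    have h := dvd_iff_coe u 1 ⟨u ^ 5, pow_mem_ringA u⟩
    rw [pow_one, pow_one] at h
    rw [h]
    exact dvd_pow (X_dvd_iff.2 hu0) (by norm_num)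
  dvd_a := by
    intro N
    have h := dvd_iff_coe u 1 (approxA u N)
    rw [pow_one, pow_one] at h
    rw [h, X_dvd_iff]
    simp only [approxA]
    rw [← coeff_zero_eq_constantCoeff_apply, Polynomial.coeff_coe, coeff_trunc, if_pos (by omega),
      coeff_zero_eq_constantCoeff_apply, hu0]
  approx := by
    intro N
    rw [dvd_iff_coe]
    have h1 : (X : PowerSeries (ZMod 5)) ^ (4 * N) ∣ u - (trunc (4 * N + 1) u) :=
      (pow_dvd_pow _ (by omega)).trans (dvd_sub_trunc u (4 * N + 1))
    have h2 := pow_dvd_pow_of_dvd h1 5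
    rw [← pow_mul, sub_pow_char] at h2
    have e : 4 * N * 5 = 20 * N := by ring
    rw [e] at h2
    exact h2
  key := by
    intro g hg
    apply dvd_of_eval₂_eq_zero u hu
    ext n
    rw [map_zero]
    have h1 := (dvd_iff_coe u (n + 1) _).1 (hg (n + 1))
    have h2 : (X : PowerSeries (ZMod 5)) ^ (n + 1) ∣ u - (approxA u (n + 1) : ringA u) :=
      (pow_dvd_pow _ (by omega)).trans (dvd_sub_trunc u (4 * (n + 1) + 1))
    have h3 := Polynomial.sub_dvd_eval_sub u ((approxA u (n + 1) : ringA u) : PowerSeries (ZMod 5))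
      (g.map (ringA u).subtype)
    have h4 := h2.trans h3
    have h5 : Polynomial.eval ((approxA u (n + 1) : ringA u) : PowerSeries (ZMod 5))
        (g.map (ringA u).subtype) = ((g.eval (approxA u (n + 1)) : ringA u) :
          PowerSeries (ZMod 5)) := by
      rw [Polynomial.eval_map]
      exact Polynomial.eval₂_at_apply (ringA u).subtype (approxA u (n + 1))
    rw [h5, Polynomial.eval_map] at h4
    have h6 := (dvd_sub_left h1).1 h4
    rw [X_pow_dvd_iff] at h6
    exact h6 n (by omega)

end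

theorem exists_data : ∃ (A : Type) (_ : CommRing A) (_ : IsDomain A)
    (_ : IsDiscreteValuationRing A) (_ : CharP A 5), Nonempty (Data A) := by
  obtain ⟨u, hu, hu0⟩ := exists_transcendental
  exact ⟨ringA u, inferInstance, inferInstance, inferInstance, inferInstance, ⟨dataA u hu hu0⟩⟩

end Pool.Agent.Lib.MP4583ef
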