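import Mathlib

/-!
# Adjoint ideals of ideals in a domain (Lipman)

Statement level definitions for MP_4583ef_ag.
-/

namespace Pool.Agent.Lib.MP4583ef

/-- The zeroth Fitting ideal of a finitely generated module: the ideal generated by the
determinants of all square matrices of relations between the members of a finite generating
family. -/
noncomputable def fittingZero (V M : Type*) [CommRing V] [AddCommGroup M] [Module V M] :
    Ideal V :=
  Ideal.span {d | ∃ (n : ℕ) (g : Fin n → M) (a : Matrix (Fin n) (Fin n) V),
    Submodule.span V (Set.range g) = ⊤ ∧ (∀ i, ∑ j, a i j • g j = 0) ∧ d = a.det}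

/-- The Jacobian ideal `J_{V/R}`: the zeroth Fitting ideal of the module of Kähler
differentials. -/
noncomputable def jacobianIdeal (R V : Type*) [CommRing R] [CommRing V] [Algebra R V] :
    Ideal V :=
  fittingZero V (Ω[V⁄R])

/-- A prime divisor of the domain `R`: a discrete valuation ring `V` between `R` and its field of
fractions `K`, with field of fractions `K`, essentially of finite type over `R`. -/
structure IsPrimeDivisor {R : Type*} [CommRing R] [IsDomain R]
    (V : Subalgebra R (FractionRing R)) : Prop where
  dvr : IsDiscreteValuationRing V
  frac : IsFractionRing V (FractionRing R)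
  ess : Algebra.EssFiniteType R V

/-- The order of a set `S` of elements of a discrete valuation ring: the minimum of the
normalized valuation on `S`. -/
noncomputable def ordSet (V : Type*) [CommRing V] [IsDomain V] [IsDiscreteValuationRing V]
    (S : Set V) : ℕ∞ :=
  ⨅ a ∈ S, IsDiscreteValuationRing.addVal V a

/-- Lipman's adjoint ideal: all `r` in `R` with `v(r) + v(J_{V/R}) ≥ v(I)` for every prime
divisor `V` of `R`. -/
noncomputable def adj {R : Type*} [CommRing R] [IsDomain R] (I : Ideal R) : Ideal R where
  carrier := {r | ∀ (V : Subalgebra R (FractionRing R)) (_ : IsPrimeDivisor V)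
    (_ : IsDiscreteValuationRing V),
    ordSet V (algebraMap R V '' (I : Set R)) ≤
      IsDiscreteValuationRing.addVal V (algebraMap R V r) +
        ordSet V (jacobianIdeal R V : Set V)}
  add_mem' := by
    intro a b ha hb V hV hD
    have h1 := ha V hV hD
    have h2 := hb V hV hD
    have h3 := IsDiscreteValuationRing.addVal_add (R := V) (a := algebraMap R V a)
      (b := algebraMap R V b)
    rw [map_add]
    rcases min_choice (IsDiscreteValuationRing.addVal V (algebraMap R V a))
      (IsDiscreteValuationRing.addVal V (algebraMap R V b)) with h | h
    · rw [h] at h3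
      exact h1.trans (add_le_add_left h3 _)
    · rw [h] at h3
      exact h2.trans (add_le_add_left h3 _)
  zero_mem' := by
    intro V hV hD
    simp
  smul_mem' := by
    intro c a ha V hV hD
    have h1 := ha V hV hD
    rw [smul_eq_mul, map_mul, IsDiscreteValuationRing.addVal_mul]
    refine h1.trans (add_le_add_left ?_ _)
    exact le_add_self

end Pool.Agent.Lib.MP4583ef
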