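import Mathlib

/-!
# A discrete valuation ring that is not excellent
-/

namespace Pool.Agent.Lib.MP4583ef

open PowerSeries

/-- The elements of `S` that are quotients of elements of the subring `B`. -/
def fracInter {S : Type*} [CommRing S] [IsDomain S] (B : Subring S) : Subring S where
  carrier := {a | ∃ b ∈ B, b ≠ 0 ∧ a * b ∈ B}
  mul_mem' := by
    rintro a a' ⟨b, hb, hb0, h⟩ ⟨b', hb', hb0', h'⟩
    refine ⟨b * b', B.mul_mem hb hb', mul_ne_zero hb0 hb0', ?_⟩
    have h2 := B.mul_mem h h'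
    have e : a * b * (a' * b') = a * a' * (b * b') := by ring
    rwa [e] at h2
  one_mem' := ⟨1, B.one_mem, one_ne_zero, by simp⟩
  add_mem' := by
    rintro a a' ⟨b, hb, hb0, h⟩ ⟨b', hb', hb0', h'⟩
    refine ⟨b * b', B.mul_mem hb hb', mul_ne_zero hb0 hb0', ?_⟩
    have h2 := B.add_mem (B.mul_mem h hb') (B.mul_mem h' hb)
    have e : a * b * b' + a' * b' * b = (a + a') * (b * b') := by ring
    rwa [e] at h2
  zero_mem' := ⟨1, B.one_mem, one_ne_zero, by simp⟩
  neg_mem' := by
    rintro a ⟨b, hb, hb0, h⟩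
    refine ⟨b, hb, hb0, ?_⟩
    have h2 := B.neg_mem h
    rwa [← neg_mul] at h2

theorem mem_fracInter {S : Type*} [CommRing S] [IsDomain S] {B : Subring S} {a : S} :
    a ∈ fracInter B ↔ ∃ b ∈ B, b ≠ 0 ∧ a * b ∈ B := Iff.rfl

theorem le_fracInter {S : Type*} [CommRing S] [IsDomain S] (B : Subring S) :
    B ≤ fracInter B := fun a ha => ⟨1, B.one_mem, one_ne_zero, by simpa using ha⟩

theorem fracInter_closed {S : Type*} [CommRing S] [IsDomain S] {B : Subring S} {a b : S}
    (hb : b ∈ fracInter B) (hb0 : b ≠ 0) (hab : a * b ∈ fracInter B) : a ∈ fracInter B := by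
  obtain ⟨c, hc, hc0, h⟩ := hb
  obtain ⟨d, hd, hd0, h'⟩ := hab
  refine ⟨b * c * d, B.mul_mem (by simpa using h) hd,
    mul_ne_zero (mul_ne_zero hb0 hc0) hd0, ?_⟩
  have e : a * (b * c * d) = a * b * d * c := by ring
  rw [e]
  exact B.mul_mem h' hc

section dvr

variable {k : Type*} [Field k] (A : Subring k⟦X⟧) (hX : (X : k⟦X⟧) ∈ A)
  (hA : ∀ a b : k⟦X⟧, b ∈ A → b ≠ 0 → a * b ∈ A → a ∈ A)

include hA in
theorem isUnit_of_constantCoeff (a : A) (ha : constantCoeff (a : k⟦X⟧) ≠ 0) : IsUnit a := by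
  have h1 : IsUnit (a : k⟦X⟧) := isUnit_iff_constantCoeff.2 (isUnit_iff_ne_zero.2 ha)
  obtain ⟨v, hv⟩ := h1
  have h2 : (↑v⁻¹ : k⟦X⟧) * a = 1 := by rw [← hv]; simp
  have hv0 : (a : k⟦X⟧) ≠ 0 := by
    intro h; rw [h] at ha; simp at ha
  have h3 : (↑v⁻¹ : k⟦X⟧) ∈ A := hA _ _ a.2 hv0 (by rw [h2]; exact A.one_mem)
  exact IsUnit.of_mul_eq_one ⟨_, h3⟩ (by
    apply Subtype.ext
    simpa [mul_comm] using h2)

theorem constantCoeff_ne_zero_of_isUnit (a : A) (ha : IsUnit a) :
    constantCoeff (a : k⟦X⟧) ≠ 0 := by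
  have h1 : IsUnit (a : k⟦X⟧) := ha.map A.subtype
  exact isUnit_iff_ne_zero.1 (isUnit_iff_constantCoeff.1 h1)

include hA in
theorem irreducible_X : Irreducible (⟨X, hX⟩ : A) := by
  refine ⟨fun h => ?_, ?_⟩
  · exact constantCoeff_ne_zero_of_isUnit A _ h (by simp)
  · intro a b h
    by_contra hcon
    push Not at hcon
    have ha : constantCoeff (a : k⟦X⟧) = 0 := by
      by_contra h'
      exact hcon.1 (isUnit_of_constantCoeff A hA a h')
    have hb : constantCoeff (b : k⟦X⟧) = 0 := by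
      by_contra h'
      exact hcon.2 (isUnit_of_constantCoeff A hA b h')
    obtain ⟨a', ha'⟩ := X_dvd_iff.2 ha
    obtain ⟨b', hb'⟩ := X_dvd_iff.2 hb
    have e : (X : k⟦X⟧) = a * b := congrArg Subtype.val h
    rw [ha', hb'] at e
    have e2 : (X : k⟦X⟧) * (a' * (X * b') - 1) = 0 := by
      have e3 : (X : k⟦X⟧) * (a' * (X * b')) = X := by rw [← mul_assoc]; exact e.symm
      rw [mul_sub, e3, mul_one, sub_self]
    rcases mul_eq_zero.1 e2 with h0 | h0
    · exact X_ne_zero h0
    · have h1 := congrArg constantCoeff h0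
      simp at h1

include hX in
theorem X_pow_mem (n : ℕ) : (X : k⟦X⟧) ^ n ∈ A := A.pow_mem hX n

include hA in
theorem exists_unit_pow (a : A) (ha : a ≠ 0) :
    ∃ (n : ℕ) (v : Aˣ), a = (⟨X, hX⟩ : A) ^ n * v := by
  have ha0 : (a : k⟦X⟧) ≠ 0 := fun h => ha (Subtype.ext h)
  obtain ⟨n, w, hw, hcw⟩ : ∃ (n : ℕ) (w : k⟦X⟧), (a : k⟦X⟧) = X ^ n * w ∧
      constantCoeff w ≠ 0 := by
    refine ⟨(a : k⟦X⟧).order.toNat, divXPowOrder (a : k⟦X⟧), ?_, ?_⟩
    · exact (X_pow_order_mul_divXPowOrder).symm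
    · have h1 := Unit_of_divided_by_X_pow_order_nonzero ha0
      have h2 : IsUnit (divXPowOrder (a : k⟦X⟧)) := by rw [← h1]; exact Units.isUnit _
      exact isUnit_iff_ne_zero.1 (isUnit_iff_constantCoeff.1 h2)
  have hwA : w ∈ A := by
    refine hA w (X ^ n) (X_pow_mem A hX n) (pow_ne_zero _ X_ne_zero) ?_
    rw [mul_comm, ← hw]
    exact a.2
  obtain ⟨v, hv⟩ := isUnit_of_constantCoeff A hA ⟨w, hwA⟩ hcw
  refine ⟨n, v, ?_⟩
  apply Subtype.ext
  rw [hw, hv]
  rfl

include hX hA in
theorem isDiscreteValuationRing : IsDiscreteValuationRing A := by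
  apply IsDiscreteValuationRing.ofHasUnitMulPowIrreducibleFactorization
  refine ⟨⟨X, hX⟩, irreducible_X A hX hA, ?_⟩
  intro a ha
  obtain ⟨n, v, hv⟩ := exists_unit_pow A hX hA a ha
  exact ⟨n, v, hv.symm⟩

end dvr

/-! ### A transcendental power series over a finite field -/

instance fact5 : Fact (Nat.Prime 5) := ⟨by norm_num⟩

theorem not_countable_powerSeries : ¬ Countable (PowerSeries (ZMod 5)) := by
  intro h
  obtain ⟨e, he⟩ := exists_injective_nat (PowerSeries (ZMod 5))
  classical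
  refine Function.cantor_injective
    (fun s : Set ℕ => e (PowerSeries.mk fun n => if n ∈ s then 1 else 0)) ?_
  intro s s' hs
  have h1 := he hs
  ext n
  have h2 := congrArg (PowerSeries.coeff n) h1
  simp only [PowerSeries.coeff_mk] at h2
  by_cases a : n ∈ s <;> by_cases b : n ∈ s' <;> simp [a, b] at h2 ⊢

theorem algebraMap_polynomial_injective :
    Function.Injective (algebraMap (Polynomial (ZMod 5)) (PowerSeries (ZMod 5))) := by
  intro a b h
  apply Polynomial.coe_injective (ZMod 5)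
  simpa [PowerSeries.algebraMap_apply'] using h

theorem exists_transcendental : ∃ u : PowerSeries (ZMod 5),
    Transcendental (Polynomial (ZMod 5)) u ∧ constantCoeff u = 0 := by
  by_contra hcon
  push Not at hcon
  apply not_countable_powerSeries
  have : FaithfulSMul (Polynomial (ZMod 5)) (PowerSeries (ZMod 5)) :=
    (faithfulSMul_iff_algebraMap_injective _ _).2 algebraMap_polynomial_injective
  have : Module.IsTorsionFree (Polynomial (ZMod 5)) (PowerSeries (ZMod 5)) :=
    .trans_faithfulSMul (Polynomial (ZMod 5)) (PowerSeries (ZMod 5)) (PowerSeries (ZMod 5))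
  have h1 : {x : PowerSeries (ZMod 5) | IsAlgebraic (Polynomial (ZMod 5)) x} = Set.univ := by
    refine Set.eq_univ_of_forall fun v => ?_
    show IsAlgebraic (Polynomial (ZMod 5)) v
    by_contra hv
    refine hcon (v - C (constantCoeff v)) ?_ (by simp)
    intro h
    apply hv
    have h2 : IsAlgebraic (Polynomial (ZMod 5)) (C (constantCoeff v) : PowerSeries (ZMod 5)) := by
      have h3 := isAlgebraic_algebraMap (R := Polynomial (ZMod 5)) (A := PowerSeries (ZMod 5))
        (Polynomial.C (constantCoeff v))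
      have h4 : algebraMap (Polynomial (ZMod 5)) (PowerSeries (ZMod 5))
          (Polynomial.C (constantCoeff v)) = C (constantCoeff v) := by
        simp [PowerSeries.algebraMap_apply']
      rwa [h4] at h3
    have h4 := h.add h2
    simpa using h4
  have : Countable (Polynomial (ZMod 5)) := by
    rw [← Cardinal.mk_le_aleph0_iff]
    refine Polynomial.cardinalMk_le_max.trans ?_
    simp
  have h2 : Set.Countable {x : PowerSeries (ZMod 5) | IsAlgebraic (Polynomial (ZMod 5)) x} :=
    Algebraic.countable _ _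
  rw [h1] at h2
  exact Set.countable_univ_iff.1 h2

/-! ### The ring -/

/-- What the counterexample needs of the discrete valuation ring `A`. -/
structure Data (A : Type) [CommRing A] where
  t : A
  U : A
  a : ℕ → A
  irr : Irreducible t
  dvd_U : t ∣ U
  dvd_a : ∀ N, t ∣ a N
  approx : ∀ N, t ^ (20 * N) ∣ U - a N ^ 5
  key : ∀ g : Polynomial A, (∀ N, t ^ N ∣ g.eval (a N)) →
    (Polynomial.X ^ 5 - Polynomial.C U) ∣ g

/-- The ring `k[X, u ^ 5]`. -/
noncomputable def ringB (u : PowerSeries (ZMod 5)) : Subring (PowerSeries (ZMod 5)) :=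
  (Polynomial.aeval (R := Polynomial (ZMod 5)) (u ^ 5)).range.toSubring

theorem mem_ringB {u a : PowerSeries (ZMod 5)} : a ∈ ringB u ↔
    ∃ P : Polynomial (Polynomial (ZMod 5)), Polynomial.aeval (u ^ 5) P = a := by
  simp [ringB]

theorem coe_mem_ringB (u : PowerSeries (ZMod 5)) (P : Polynomial (ZMod 5)) :
    (P : PowerSeries (ZMod 5)) ∈ ringB u := by
  rw [mem_ringB]
  refine ⟨Polynomial.C P, ?_⟩
  rw [Polynomial.aeval_C]
  simp [PowerSeries.algebraMap_apply']

theorem not_mem_fracInter {u : PowerSeries (ZMod 5)}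
    (hu : Transcendental (Polynomial (ZMod 5)) u) : u ∉ fracInter (ringB u) := by
  rintro ⟨b, hb, hb0, h⟩
  obtain ⟨Q, hQ⟩ := mem_ringB.1 hb
  obtain ⟨P, hP⟩ := mem_ringB.1 h
  have hG : Polynomial.X * Polynomial.expand _ 5 Q - Polynomial.expand _ 5 P = 0 := by
    by_contra hG
    apply hu
    refine ⟨_, hG, ?_⟩
    rw [map_sub, map_mul, Polynomial.aeval_X, Polynomial.expand_aeval, Polynomial.expand_aeval,
      hQ, hP, sub_self]
  have hQ0 : Q = 0 := by
    ext1 n
    have h1 := congrArg (fun R => Polynomial.coeff R (5 * n + 1)) hG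
    simp only [Polynomial.coeff_sub, Polynomial.coeff_X_mul, Polynomial.coeff_zero] at h1
    rw [Polynomial.coeff_expand (by norm_num), Polynomial.coeff_expand (by norm_num),
      if_pos (by omega), if_neg (by omega), sub_zero] at h1
    rw [Polynomial.coeff_zero, ← h1]
    congr 1
    omega
  apply hb0
  rw [← hQ, hQ0, map_zero]

end Pool.Agent.Lib.MP4583ef
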