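import Pool.Agent.Lib.MP_4583ef_ag.Defs

/-!
# Elements of the Jacobian ideal
-/

namespace Pool.Agent.Lib.MP4583ef

theorem mem_fittingZero {V M : Type*} [CommRing V] [AddCommGroup M] [Module V M]
    (g₁ g₂ : M) (c₁ c₂ : V) (hg : Submodule.span V {g₁, g₂} = ⊤) (h₁ : c₁ • g₁ = 0)
    (h₂ : c₂ • g₂ = 0) : c₁ * c₂ ∈ fittingZero V M := by
  apply Ideal.subset_span
  refine ⟨2, ![g₁, g₂], !![c₁, 0; 0, c₂], ?_, ?_, ?_⟩
  · rw [← hg]
    congr 1
    simp only [Matrix.range_cons, Matrix.range_empty, Set.union_empty, Set.singleton_union]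
  · intro i
    fin_cases i <;> simp [Fin.sum_univ_two, h₁, h₂]
  · rw [Matrix.det_fin_two_of]
    ring

theorem mem_jacobianIdeal {R V : Type*} [CommRing R] [CommRing V] [Algebra R V]
    (a b : V) (s₁ s₂ x₁ x₂ : R) (h₁ : algebraMap R V s₁ * a = algebraMap R V x₁)
    (h₂ : algebraMap R V s₂ * b = algebraMap R V x₂)
    (hgen : ∀ v : V, ∃ q ∈ Algebra.adjoin R {a, b}, IsUnit q ∧ v * q ∈ Algebra.adjoin R {a, b}) :
    algebraMap R V s₁ * algebraMap R V s₂ ∈ jacobianIdeal R V := by
  set N : Submodule V (Ω[V⁄R]) := Submodule.span V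
    {KaehlerDifferential.D R V a, KaehlerDifferential.D R V b} with hN
  have hadj : ∀ w ∈ Algebra.adjoin R {a, b}, KaehlerDifferential.D R V w ∈ N := by
    intro w hw
    induction hw using Algebra.adjoin_induction with
    | mem x hx =>
      apply Submodule.subset_span
      rcases hx with rfl | rfl
      · exact Or.inl rfl
      · exact Or.inr rfl
    | algebraMap r => simp
    | add x y _ _ hx hy => rw [map_add]; exact N.add_mem hx hy
    | mul x y _ _ hx hy =>
      rw [Derivation.leibniz]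
      exact N.add_mem (N.smul_mem _ hy) (N.smul_mem _ hx)
  have hall : ∀ v : V, KaehlerDifferential.D R V v ∈ N := by
    intro v
    obtain ⟨q, hq, hu, hvq⟩ := hgen v
    have h3 := hadj _ hvq
    rw [Derivation.leibniz] at h3
    have h4 := (Submodule.add_mem_iff_right N (N.smul_mem v (hadj q hq))).1 h3
    obtain ⟨w, rfl⟩ := hu
    have h5 := N.smul_mem (↑w⁻¹ : V) h4
    rwa [smul_smul, Units.inv_mul, one_smul] at h5
  have htop : N = ⊤ := by
    rw [eq_top_iff, ← KaehlerDifferential.span_range_derivation R V, Submodule.span_le]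
    rintro _ ⟨v, rfl⟩
    exact hall v
  refine mem_fittingZero _ _ _ _ htop ?_ ?_
  · have h3 := congrArg (KaehlerDifferential.D R V) h₁
    rw [Derivation.leibniz] at h3
    simpa using h3
  · have h3 := congrArg (KaehlerDifferential.D R V) h₂
    rw [Derivation.leibniz] at h3
    simpa using h3

end Pool.Agent.Lib.MP4583ef
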