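import Pool.Agent.Lib.MP_4583ef_ag.Defs

/-!
# The discrete valuation ring attached to a prime element
-/

namespace Pool.Agent.Lib.MP4583ef

section

variable {C R K : Type*} [CommRing C] [IsDomain C] [IsNoetherianRing C] [CommRing R] [Field K]
  [Algebra R K] (T : C) (hT : Prime T) (χ : C →+* K) (hχ : Function.Injective χ)
  (hR : ∀ r : R, ∃ P Q : C, ¬ T ∣ Q ∧ algebraMap R K r * χ Q = χ P)

/-- The fractions of elements of `C` with denominator not divisible by the prime `T`. -/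
def locSub : Subalgebra R K where
  carrier := {v | ∃ P Q : C, ¬ T ∣ Q ∧ v * χ Q = χ P}
  mul_mem' := by
    rintro v v' ⟨P, Q, hQ, h⟩ ⟨P', Q', hQ', h'⟩
    refine ⟨P * P', Q * Q', fun hd => (hT.dvd_or_dvd hd).elim hQ hQ', ?_⟩
    rw [map_mul, map_mul, ← h, ← h']
    ring
  add_mem' := by
    rintro v v' ⟨P, Q, hQ, h⟩ ⟨P', Q', hQ', h'⟩
    refine ⟨P * Q' + P' * Q, Q * Q', fun hd => (hT.dvd_or_dvd hd).elim hQ hQ', ?_⟩
    rw [map_add, map_mul, map_mul, map_mul, ← h, ← h']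
    ring
  algebraMap_mem' := hR

omit [IsDomain C] [IsNoetherianRing C] in
theorem mem_locSub {v : K} : v ∈ locSub T hT χ hR ↔ ∃ P Q : C, ¬ T ∣ Q ∧ v * χ Q = χ P := Iff.rfl

omit [IsDomain C] [IsNoetherianRing C] in
theorem map_mem_locSub (P : C) : χ P ∈ locSub T hT χ hR :=
  ⟨P, 1, fun h => hT.not_isUnit (isUnit_of_dvd_one h), by simp⟩

include hχ in
theorem isUnit_locSub {Q : C} (hQ : ¬ T ∣ Q) :
    IsUnit (⟨χ Q, map_mem_locSub T hT χ hR Q⟩ : locSub T hT χ hR) := by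
  have hQ0 : χ Q ≠ 0 := by
    intro h
    rw [map_eq_zero_iff χ hχ] at h
    exact hQ (h ▸ dvd_zero T)
  have hmem : (χ Q)⁻¹ ∈ locSub T hT χ hR := ⟨1, Q, hQ, by rw [inv_mul_cancel₀ hQ0, map_one]⟩
  exact IsUnit.of_mul_eq_one ⟨_, hmem⟩ (Subtype.ext (mul_inv_cancel₀ hQ0))

include hχ in
theorem dvd_of_dvd_locSub (m : ℕ) (P : C)
    (h : (⟨χ T, map_mem_locSub T hT χ hR T⟩ : locSub T hT χ hR) ^ m ∣
      ⟨χ P, map_mem_locSub T hT χ hR P⟩) : T ^ m ∣ P := by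
  obtain ⟨⟨v, P', Q, hQ, hv⟩, hc⟩ := h
  have h1 : χ P = χ T ^ m * v := congrArg Subtype.val hc
  have h2 : χ (P * Q) = χ (T ^ m * P') := by
    rw [map_mul, map_mul, h1, map_pow, mul_assoc, hv]
  have h3 : P * Q = T ^ m * P' := hχ h2
  have h4 : T ^ m ∣ Q * P := ⟨P', by rw [← h3, mul_comm]⟩
  exact hT.pow_dvd_of_dvd_mul_left m hQ h4

include hχ in
theorem irreducible_locSub :
    Irreducible (⟨χ T, map_mem_locSub T hT χ hR T⟩ : locSub T hT χ hR) := by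
  have hnu : ¬ IsUnit (⟨χ T, map_mem_locSub T hT χ hR T⟩ : locSub T hT χ hR) := by
    intro h
    have h1 := dvd_of_dvd_locSub T hT χ hχ hR 1 1 (by rw [pow_one]; exact h.dvd)
    rw [pow_one] at h1
    exact hT.not_isUnit (isUnit_of_dvd_one h1)
  refine ⟨hnu, ?_⟩
  rintro ⟨v, P, Q, hQ, hv⟩ ⟨v', P', Q', hQ', hv'⟩ h
  have h1 : χ T = v * v' := congrArg Subtype.val h
  have h2 : T * (Q * Q') = P * P' := by
    apply hχ
    rw [map_mul, map_mul, map_mul, h1, ← hv, ← hv']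
    ring
  have hunit : ∀ (w : K) (A B : C) (hB : ¬ T ∣ B) (hw : w * χ B = χ A), ¬ T ∣ A →
      IsUnit (⟨w, A, B, hB, hw⟩ : locSub T hT χ hR) := by
    intro w A B hB hw hA
    have u1 := isUnit_locSub T hT χ hχ hR hA
    have u2 := isUnit_locSub T hT χ hχ hR hB
    have e : (⟨w, A, B, hB, hw⟩ : locSub T hT χ hR) * ⟨χ B, map_mem_locSub T hT χ hR B⟩ =
      ⟨χ A, map_mem_locSub T hT χ hR A⟩ := Subtype.ext hw
    rw [← e] at u1
    exact isUnit_of_mul_isUnit_left u1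
  by_cases hP : T ∣ P
  · by_cases hP' : T ∣ P'
    · exfalso
      obtain ⟨c, rfl⟩ := hP
      obtain ⟨c', rfl⟩ := hP'
      have h3 : Q * Q' = T * (c * c') := by
        apply mul_left_cancel₀ hT.ne_zero
        rw [h2]; ring
      exact (hT.dvd_or_dvd ⟨_, h3⟩).elim hQ hQ'
    · exact Or.inr (hunit v' P' Q' hQ' hv' hP')
  · exact Or.inl (hunit v P Q hQ hv hP)

include hχ in
theorem dvr_locSub : IsDiscreteValuationRing (locSub T hT χ hR) := by
  apply IsDiscreteValuationRing.ofHasUnitMulPowIrreducibleFactorization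
  refine ⟨_, irreducible_locSub T hT χ hχ hR, ?_⟩
  rintro ⟨v, P, Q, hQ, hv⟩ h0
  have hv0 : v ≠ 0 := fun h => h0 (Subtype.ext h)
  have hQ0 : χ Q ≠ 0 := by
    intro h
    rw [map_eq_zero_iff χ hχ] at h
    exact hQ (h ▸ dvd_zero T)
  have hP0 : P ≠ 0 := by
    rintro rfl
    rw [map_zero] at hv
    exact (mul_ne_zero hv0 hQ0) hv
  obtain ⟨n, P', hP', hPP⟩ := WfDvdMonoid.max_power_factor hP0 hT.irreducible
  refine ⟨n, ?_⟩
  have u1 := isUnit_locSub T hT χ hχ hR hP'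
  have u2 := isUnit_locSub T hT χ hχ hR hQ
  have e : (⟨χ T, map_mem_locSub T hT χ hR T⟩ : locSub T hT χ hR) ^ n *
      ⟨χ P', map_mem_locSub T hT χ hR P'⟩ = ⟨v, P, Q, hQ, hv⟩ *
        ⟨χ Q, map_mem_locSub T hT χ hR Q⟩ := by
    apply Subtype.ext
    show χ T ^ n * χ P' = v * χ Q
    rw [hv, hPP, map_mul, map_pow]
  obtain ⟨x, hx⟩ := u1
  obtain ⟨y, hy⟩ := u2
  refine ⟨x * y⁻¹, ?_⟩
  rw [Units.val_mul, ← mul_assoc, hx, e, ← hy, Units.mul_inv_cancel_right]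

end

end Pool.Agent.Lib.MP4583ef
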