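import Pool.Agent.Lib.MP_4583ef_ag.Val

/-!
# The counterexample
-/

namespace Pool.Agent.Lib.MP4583ef

open IsDiscreteValuationRing

theorem pow_dvd_of_le {V : Type} [CommRing V] [IsDomain V] [IsDiscreteValuationRing V] {ϖ x : V}
    (hϖ : Irreducible ϖ) {n : ℕ} (h : (n : ℕ∞) ≤ addVal V x) : ϖ ^ n ∣ x := by
  rw [← addVal_le_iff_dvd, addVal_pow, addVal_uniformizer hϖ]
  simpa using h

theorem le_of_pow_dvd {V : Type} [CommRing V] [IsDomain V] [IsDiscreteValuationRing V] {ϖ x : V}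
    (hϖ : Irreducible ϖ) {n : ℕ} (h : ϖ ^ n ∣ x) : (n : ℕ∞) ≤ addVal V x := by
  rw [← addVal_le_iff_dvd, addVal_pow, addVal_uniformizer hϖ] at h
  simpa using h

section

variable {A : Type} [CommRing A] [IsDomain A] [IsDiscreteValuationRing A] [CharP A 5]
  (D : Data A) (j : Fin 2)
  (R : Type) [CommRing R] [IsDomain R] [Algebra (PC A) R] [IsLocalization.AtPrime R (mm A)]

/-- The ideal `(y_j ^ 4, x ^ 5 - U)`. -/
noncomputable def II : Ideal R :=
  Ideal.map (algebraMap (PC A) R) (Ideal.span {MvPolynomial.X j ^ 4, ff D})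

theorem pow_dvd_of_mem_II (N : ℕ) {a : R} (ha : a ∈ II D j R) :
    chi' D N j R (FractionRing R) (TT D) ^ (20 * N) ∣
      algebraMap R (VV D N j R (FractionRing R)) a := by
  rw [II, Ideal.map_span, Set.image_pair, Ideal.mem_span_pair] at ha
  obtain ⟨α, β, rfl⟩ := ha
  rw [map_add, map_mul, map_mul, algebraMap_VV, algebraMap_VV, ← map_pow (chi' D N j _ _)]
  exact dvd_add ((map_dvd _ (pow_dvd_phi_X D N j)).mul_left _)
    ((map_dvd _ (pow_dvd_phi_ff D N j)).mul_left _)

theorem pow_dvd_of_mem_adj (N : ℕ) {r : R} (hr : r ∈ adj (II D j R)) :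
    chi' D N j R (FractionRing R) (TT D) ^ (11 * N) ∣
      algebraMap R (VV D N j R (FractionRing R)) r := by
  set V := VV D N j R (FractionRing R) with hV
  have hdvr : IsDiscreteValuationRing V := dvr_VV D N j
  have h := hr V ⟨hdvr, frac_VV D N j, ess_VV D N j⟩ hdvr
  have hϖ := irreducible_chi'_TT D N j (R := R) (K := FractionRing R)
  apply pow_dvd_of_le hϖ
  have h1 : ordSet V (jacobianIdeal R V : Set V) ≤ ((9 * N : ℕ) : ℕ∞) := by
    refine (iInf₂_le _ (pow_mem_jacobianIdeal D N j)).trans ?_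
    rw [addVal_pow, addVal_uniformizer hϖ]
    simp
  have h2 : ((20 * N : ℕ) : ℕ∞) ≤ ordSet V (algebraMap R V '' (II D j R : Set R)) := by
    refine le_iInf₂ ?_
    rintro _ ⟨a, ha, rfl⟩
    exact le_of_pow_dvd hϖ (pow_dvd_of_mem_II D j R N ha)
  have h3 := (h2.trans h).trans (add_le_add_right h1 _)
  have h4 : ((20 * N : ℕ) : ℕ∞) = ((11 * N : ℕ) : ℕ∞) + ((9 * N : ℕ) : ℕ∞) := by
    rw [← Nat.cast_add]
    congr 1
    ring
  rw [h4] at h3
  exact (ENat.add_le_add_iff_right (ENat.natCast_ne_top _)).1 h3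

theorem adj_le : adj (II D j R) ≤
    Ideal.map (algebraMap (PC A) R) (Ideal.span {MvPolynomial.X j ^ 3, ff D}) := by
  intro r hr
  obtain ⟨P, s, h⟩ := IsLocalization.exists_mk'_eq (mm A).primeCompl r
  have h1 : r * algebraMap (PC A) R s = algebraMap (PC A) R P := by
    rw [← h, IsLocalization.mk'_spec]
  have h2 : algebraMap (PC A) R P ∈ adj (II D j R) := by
    rw [← h1]
    exact Ideal.mul_mem_right _ _ hr
  have h3 : P ∈ Ideal.span {MvPolynomial.X j ^ 3, ff D} := by
    apply mem_of_forall_dvd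
    intro N
    have h4 := pow_dvd_of_mem_adj D j R N h2
    rw [algebraMap_VV] at h4
    exact dvd_of_dvd_chi' D N j _ _ h4
  have h5 := Ideal.mem_map_of_mem (algebraMap (PC A) R) h3
  rw [← h1] at h5
  exact (Ideal.unit_mul_mem_iff_mem _ (IsLocalization.map_units R s)).1
    (by rwa [mul_comm] at h5)

omit [IsDomain R] [CharP A 5] [IsLocalization.AtPrime R (mm A)] in
theorem X_mem_II : algebraMap (PC A) R (MvPolynomial.X j ^ 4) ∈ II D j R :=
  Ideal.mem_map_of_mem _ (Ideal.subset_span (Or.inl rfl))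

omit [IsDomain R] [CharP A 5] [IsLocalization.AtPrime R (mm A)] in
theorem ff_mem_II : algebraMap (PC A) R (ff D) ∈ II D j R :=
  Ideal.mem_map_of_mem _ (Ideal.subset_span (Or.inr rfl))

omit [IsDomain R] [CharP A 5] in
theorem II_ne_bot : II D j R ≠ ⊥ := by
  intro h
  have h1 := X_mem_II D j R
  rw [h, Ideal.mem_bot, map_eq_zero_iff _
    (IsLocalization.injective R (mm A).primeCompl_le_nonZeroDivisors)] at h1
  exact pow_ne_zero 4 (MvPolynomial.X_ne_zero j) h1

/-- A product `a * b` with `a ^ 2` and `b ^ 2` in the ideal lies in the adjoint ideal. -/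
theorem mul_mem_adj {R : Type} [CommRing R] [IsDomain R] {I : Ideal R} {a b : R}
    (ha : a * a ∈ I) (hb : b * b ∈ I) : a * b ∈ adj I := by
  intro V _ hV
  refine le_trans ?_ le_self_add
  rw [map_mul, addVal_mul]
  rcases le_total (addVal V (algebraMap R V a)) (addVal V (algebraMap R V b)) with h | h
  · refine (iInf₂_le _ ⟨_, ha, rfl⟩).trans ?_
    rw [map_mul, addVal_mul]
    exact add_le_add_right h _
  · refine (iInf₂_le _ ⟨_, hb, rfl⟩).trans ?_
    rw [map_mul, addVal_mul]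
    exact add_le_add_left h _

/-- The polynomial `(x ^ 5 - U) y₀ ^ 2 y₁ ^ 2`. -/
noncomputable def ww : PC A := ff D * (MvPolynomial.X 0 ^ 2 * MvPolynomial.X 1 ^ 2)

omit [IsDiscreteValuationRing A] [CharP A 5] in
theorem dvd_of_mem (s : PC A)
    (h : s * ww D ∈ Ideal.span {MvPolynomial.X (0 : Fin 2) ^ 3, ff D} *
      Ideal.span {MvPolynomial.X (1 : Fin 2) ^ 3, ff D}) : D.t ∣ ev A s := by
  rw [Ideal.span_pair_mul_span_pair, Ideal.mem_span_insert] at h
  obtain ⟨c₁, z, hz, h⟩ := h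
  rw [Ideal.mem_span_insert] at hz
  obtain ⟨c₂, z, hz', rfl⟩ := hz
  rw [Ideal.mem_span_insert] at hz'
  obtain ⟨c₃, z, hz, rfl⟩ := hz'
  rw [Ideal.mem_span_singleton'] at hz
  obtain ⟨c₄, rfl⟩ := hz
  set m : Fin 2 →₀ ℕ := Finsupp.single 0 2 + Finsupp.single 1 2 with hm
  set g : Polynomial A := Polynomial.X ^ 5 - Polynomial.C D.U with hg
  have hm0 : m 0 = 2 := by simp [hm]
  have hm1 : m 1 = 2 := by simp [hm]
  have hL : MvPolynomial.coeff m (s * ww D) = MvPolynomial.coeff 0 s * g := by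
    have e : s * ww D = MvPolynomial.monomial m g * s := by
      rw [ww, ff, MvPolynomial.X_pow_eq_monomial, MvPolynomial.X_pow_eq_monomial,
        MvPolynomial.monomial_mul, MvPolynomial.C_mul_monomial, mul_comm]
      simp [hm, hg]
    rw [e]
    have h2 := MvPolynomial.coeff_monomial_mul 0 m g s
    rw [add_zero] at h2
    rw [h2, mul_comm]
  have h1 : MvPolynomial.coeff m (c₁ * (MvPolynomial.X 0 ^ 3 * MvPolynomial.X 1 ^ 3)) = 0 := by
    rw [← mul_assoc, mul_comm c₁, mul_assoc, MvPolynomial.X_pow_eq_monomial,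
      MvPolynomial.coeff_monomial_mul', if_neg]
    rw [Finsupp.single_le_iff, hm0]
    norm_num
  have h2 : MvPolynomial.coeff m (c₂ * (MvPolynomial.X 0 ^ 3 * ff D)) = 0 := by
    rw [← mul_assoc, mul_comm c₂, mul_assoc, MvPolynomial.X_pow_eq_monomial,
      MvPolynomial.coeff_monomial_mul', if_neg]
    rw [Finsupp.single_le_iff, hm0]
    norm_num
  have h3 : MvPolynomial.coeff m (c₃ * (ff D * MvPolynomial.X 1 ^ 3)) = 0 := by
    rw [← mul_assoc, MvPolynomial.X_pow_eq_monomial,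
      MvPolynomial.coeff_mul_monomial', if_neg]
    rw [Finsupp.single_le_iff, hm1]
    norm_num
  have h4 : MvPolynomial.coeff m (c₄ * (ff D * ff D)) = MvPolynomial.coeff m c₄ * (g * g) := by
    rw [ff, ← map_mul, mul_comm c₄, MvPolynomial.coeff_C_mul, mul_comm]
  have h5 := congrArg (MvPolynomial.coeff m) h
  rw [hL, MvPolynomial.coeff_add, MvPolynomial.coeff_add, MvPolynomial.coeff_add, h1, h2, h3, h4,
    zero_add, zero_add, zero_add, ← mul_assoc] at h5
  have hg0 : g ≠ 0 := (Polynomial.monic_X_pow_sub_C _ (by norm_num)).ne_zero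
  have h6 := mul_right_cancel₀ hg0 h5
  rw [ev_apply, h6, Polynomial.eval_mul, hg]
  simp only [Polynomial.eval_sub, Polynomial.eval_pow, Polynomial.eval_X, Polynomial.eval_C]
  rw [zero_pow (by norm_num), zero_sub, mul_neg, dvd_neg]
  exact D.dvd_U.mul_left _

omit [IsDomain A] [IsDiscreteValuationRing A] [CharP A 5] in
theorem yy_mul : (MvPolynomial.X 0 ^ 2 * MvPolynomial.X 1 ^ 2 : PC A) *
    (MvPolynomial.X 0 ^ 2 * MvPolynomial.X 1 ^ 2) =
      MvPolynomial.X 0 ^ 4 * MvPolynomial.X 1 ^ 4 := by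
  ring

/-- The product of the two ideals violates subadditivity. -/
theorem not_adj_mul_le : ¬ adj (II D 0 R * II D 1 R) ≤ adj (II D 0 R) * adj (II D 1 R) := by
  intro hle
  have h1 : algebraMap (PC A) R (ww D) ∈ adj (II D 0 R * II D 1 R) := by
    have hb : algebraMap (PC A) R (MvPolynomial.X 0 ^ 2 * MvPolynomial.X 1 ^ 2) *
        algebraMap (PC A) R (MvPolynomial.X 0 ^ 2 * MvPolynomial.X 1 ^ 2) ∈
          II D 0 R * II D 1 R := by
      have h := Ideal.mul_mem_mul (X_mem_II D 0 R) (X_mem_II D 1 R)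
      rw [← map_mul, ← yy_mul, map_mul] at h
      exact h
    have ha : algebraMap (PC A) R (ff D) * algebraMap (PC A) R (ff D) ∈ II D 0 R * II D 1 R :=
      Ideal.mul_mem_mul (ff_mem_II D 0 R) (ff_mem_II D 1 R)
    rw [ww, map_mul]
    exact mul_mem_adj ha hb
  have h2 := (Ideal.mul_mono (adj_le D 0 R) (adj_le D 1 R)) (hle h1)
  rw [← Ideal.map_mul, IsLocalization.algebraMap_mem_map_algebraMap_iff (mm A).primeCompl] at h2
  obtain ⟨s, hs, h3⟩ := h2
  exact hs ((mem_mm_iff D s).2 (dvd_of_mem D s h3))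

end

theorem exists_counterexample : ∃ (R : Type) (_ : CommRing R) (_ : IsDomain R)
    (_ : IsRegularLocalRing R) (I J : Ideal R), I ≠ ⊥ ∧ J ≠ ⊥ ∧
      ¬ adj (I * J) ≤ adj I * adj J := by
  obtain ⟨A, hA1, hA2, hA3, hA4, ⟨D⟩⟩ := exists_data
  have hdom : IsDomain (Localization.AtPrime (mm A)) :=
    IsLocalization.isDomain_localization (mm A).primeCompl_le_nonZeroDivisors
  exact ⟨Localization.AtPrime (mm A), inferInstance, hdom, inferInstance, II D 0 _, II D 1 _,
    II_ne_bot D 0 _, II_ne_bot D 1 _, not_adj_mul_le D _⟩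

end Pool.Agent.Lib.MP4583ef
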