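import Pool.Agent.Lib.MP_4583ef_ag.Data

/-!
# The weighted blow-up substitution
-/

namespace Pool.Agent.Lib.MP4583ef

/-- The polynomial ring `A[x][y₀, y₁]`. -/
abbrev PC (A : Type) [CommRing A] : Type := MvPolynomial (Fin 2) (Polynomial A)

/-- Evaluation at the origin. -/
noncomputable def ev (A : Type) [CommRing A] : PC A →+* A :=
  (Polynomial.constantCoeff).comp MvPolynomial.constantCoeff

section

variable {A : Type} [CommRing A] (D : Data A) (N : ℕ) (j : Fin 2)

/-- The uniformizer of `A` in `PC A`. -/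
noncomputable def TT : PC A := MvPolynomial.C (Polynomial.C D.t)

/-- The element `x ^ 5 - U`. -/
noncomputable def ff : PC A := MvPolynomial.C (Polynomial.X ^ 5 - Polynomial.C D.U)

/-- The substitution `x ↦ t ^ (4 N) x + a_N`. -/
noncomputable def subst : Polynomial A →+* Polynomial A :=
  Polynomial.compRingHom (Polynomial.C (D.t ^ (4 * N)) * Polynomial.X + Polynomial.C (D.a N))

/-- The substitution `x ↦ t ^ (4 N) x + a_N`, `y_j ↦ t ^ (5 N) y_j`. -/
noncomputable def phi : PC A →+* PC A :=
  MvPolynomial.eval₂Hom (MvPolynomial.C.comp (subst D N))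
    (fun i => if i = j then TT D ^ (5 * N) * MvPolynomial.X i else MvPolynomial.X i)

theorem subst_C (c : A) : subst D N (Polynomial.C c) = Polynomial.C c := by
  simp [subst]

theorem subst_X : subst D N Polynomial.X =
    Polynomial.C (D.t ^ (4 * N)) * Polynomial.X + Polynomial.C (D.a N) := by
  simp [subst]

theorem phi_C (p : Polynomial A) :
    phi D N j (MvPolynomial.C p) = MvPolynomial.C (subst D N p) := by
  simp [phi]

theorem phi_X (i : Fin 2) : phi D N j (MvPolynomial.X i) =
    if i = j then TT D ^ (5 * N) * MvPolynomial.X i else MvPolynomial.X i := by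
  simp [phi]

theorem phi_monomial (m : Fin 2 →₀ ℕ) (g : Polynomial A) :
    phi D N j (MvPolynomial.monomial m g) =
      MvPolynomial.monomial m (Polynomial.C (D.t ^ (5 * N * m j)) * subst D N g) := by
  rw [phi, MvPolynomial.eval₂Hom_monomial]
  have h1 : ∀ i : Fin 2, (if i = j then TT D ^ (5 * N) * MvPolynomial.X i else MvPolynomial.X i) =
      (if i = j then TT D ^ (5 * N) else 1) * MvPolynomial.X i := by
    intro i
    split_ifs <;> simp
  simp only [h1]
  rw [Finsupp.prod_fintype _ _ (fun i => pow_zero _)]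
  simp only [mul_pow, Finset.prod_mul_distrib]
  have h2 : ∏ i : Fin 2, (if i = j then TT D ^ (5 * N) else 1) ^ (m i) =
      MvPolynomial.C (Polynomial.C (D.t ^ (5 * N * m j))) := by
    rw [Finset.prod_eq_single j]
    · rw [if_pos rfl, TT]
      simp only [map_pow, pow_mul]
    · intro b _ hb
      rw [if_neg hb, one_pow]
    · intro h
      exact absurd (Finset.mem_univ j) h
  rw [h2]
  have h3 : ∏ i : Fin 2, (MvPolynomial.X i : PC A) ^ (m i) = MvPolynomial.monomial m 1 := by
    rw [MvPolynomial.monomial_eq, Finsupp.prod_fintype _ _ (fun i => pow_zero _)]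
    simp
  rw [h3, RingHom.comp_apply, ← mul_assoc, ← map_mul, MvPolynomial.C_mul_monomial, mul_one,
    mul_comm]

theorem coeff_phi (r : PC A) (m : Fin 2 →₀ ℕ) :
    MvPolynomial.coeff m (phi D N j r) =
      Polynomial.C (D.t ^ (5 * N * m j)) * subst D N (MvPolynomial.coeff m r) := by
  induction r using MvPolynomial.induction_on' with
  | monomial u a =>
    rw [phi_monomial, MvPolynomial.coeff_monomial, MvPolynomial.coeff_monomial]
    split_ifs with h
    · rw [h]
    · simp
  | add p q hp hq =>
    rw [map_add, MvPolynomial.coeff_add, MvPolynomial.coeff_add, hp, hq, map_add, mul_add]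

theorem ev_apply (r : PC A) : ev A r = (MvPolynomial.coeff 0 r).eval 0 := by
  rw [← Polynomial.coeff_zero_eq_eval_zero]
  rfl

theorem subst_coeff_zero (p : Polynomial A) : (subst D N p).coeff 0 = p.eval (D.a N) := by
  rw [Polynomial.coeff_zero_eq_eval_zero, subst, Polynomial.coe_compRingHom_apply,
    Polynomial.eval_comp]
  simp

/-- The residue of the value at the origin is preserved by the substitution. -/
theorem dvd_ev_phi_sub (r : PC A) : D.t ∣ ev A (phi D N j r) - ev A r := by
  rw [ev_apply, ev_apply, coeff_phi, ← Polynomial.coeff_zero_eq_eval_zero,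
    Polynomial.mul_coeff_zero, subst_coeff_zero]
  simp only [Finsupp.coe_zero, Pi.zero_apply, mul_zero, pow_zero, Polynomial.coeff_C_zero, one_mul]
  have h := Polynomial.sub_dvd_eval_sub (D.a N) 0 (MvPolynomial.coeff 0 r)
  rw [sub_zero] at h
  exact (D.dvd_a N).trans h

theorem dvd_TT_iff (n : ℕ) (r : PC A) :
    TT D ^ n ∣ r ↔ ∀ m, Polynomial.C (D.t ^ n) ∣ MvPolynomial.coeff m r := by
  rw [TT, ← map_pow, ← map_pow, MvPolynomial.C_dvd_iff_dvd_coeff]

/-- Membership criterion. -/
theorem mem_of_forall_dvd [IsDomain A] (r : PC A)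
    (h : ∀ N, TT D ^ (11 * N) ∣ phi D N j r) :
    r ∈ Ideal.span {MvPolynomial.X j ^ 3, ff D} := by
  have hC : ∀ m : Fin 2 →₀ ℕ, m j ≤ 2 →
      (Polynomial.X ^ 5 - Polynomial.C D.U) ∣ MvPolynomial.coeff m r := by
    intro m hm
    apply D.key
    intro N
    have h2 := (dvd_TT_iff D _ _).1 (h N) m
    have e : 5 * N * m j ≤ 10 * N := by nlinarith
    rw [coeff_phi, show 11 * N = 5 * N * m j + (N + (10 * N - 5 * N * m j)) by omega, pow_add,
      map_mul] at h2
    have h0 : (Polynomial.C (D.t ^ (5 * N * m j)) : Polynomial A) ≠ 0 := by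
      rw [Ne, Polynomial.C_eq_zero]
      exact pow_ne_zero _ D.irr.ne_zero
    have h3 := (mul_dvd_mul_iff_left h0).1 h2
    rw [pow_add, map_mul] at h3
    have h4 := (Polynomial.C_dvd_iff_dvd_coeff _ _).1 (dvd_of_mul_right_dvd h3) 0
    rwa [subst_coeff_zero] at h4
  rw [MvPolynomial.as_sum r]
  refine Ideal.sum_mem _ fun m _ => ?_
  by_cases hm : m j ≤ 2
  · obtain ⟨q, hq⟩ := hC m hm
    have e : MvPolynomial.monomial m (MvPolynomial.coeff m r) =
        MvPolynomial.monomial m q * ff D := by
      rw [hq, ff, mul_comm (MvPolynomial.monomial m q), MvPolynomial.C_mul_monomial]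
    rw [e]
    exact Ideal.mul_mem_left _ _ (Ideal.subset_span (Or.inr rfl))
  · have e : MvPolynomial.monomial m (MvPolynomial.coeff m r) =
        MvPolynomial.monomial (m - Finsupp.single j 3) (MvPolynomial.coeff m r) *
          MvPolynomial.X j ^ 3 := by
      rw [MvPolynomial.X_pow_eq_monomial, MvPolynomial.monomial_mul, mul_one]
      have e2 : m - Finsupp.single j 3 + Finsupp.single j 3 = m := by
        apply tsub_add_cancel_of_le
        rw [Finsupp.single_le_iff]
        omega
      rw [e2]
    rw [e]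
    exact Ideal.mul_mem_left _ _ (Ideal.subset_span (Or.inl rfl))

end

end Pool.Agent.Lib.MP4583ef
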