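import Pool.Agent.Lib.MP_4583ef_ag.Phi
import Pool.Agent.Lib.MP_4583ef_ag.Loc
import Pool.Agent.Lib.MP_4583ef_ag.Fitting

/-!
# The prime divisors
-/

namespace Pool.Agent.Lib.MP4583ef

/-- The ideal `(t, x, y₀, y₁)`. -/
noncomputable def mm (A : Type) [CommRing A] [IsLocalRing A] : Ideal (PC A) :=
  RingHom.ker ((IsLocalRing.residue A).comp (ev A))

instance mm_isPrime (A : Type) [CommRing A] [IsLocalRing A] : (mm A).IsPrime :=
  RingHom.ker_isPrime _

theorem mem_mm_iff {A : Type} [CommRing A] [IsDomain A] [IsDiscreteValuationRing A] (D : Data A)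
    (r : PC A) : r ∈ mm A ↔ D.t ∣ ev A r := by
  rw [mm, RingHom.mem_ker, RingHom.comp_apply, IsLocalRing.residue_eq_zero_iff,
    (IsDiscreteValuationRing.irreducible_iff_uniformizer D.t).1 D.irr,
    Ideal.mem_span_singleton]

set_option linter.unusedSectionVars false

section

variable {A : Type} [CommRing A] [IsDomain A] [IsDiscreteValuationRing A] (D : Data A)
  (N : ℕ) (j : Fin 2)
  {R K : Type} [CommRing R] [IsDomain R] [Algebra (PC A) R] [IsLocalization.AtPrime R (mm A)]
  [Field K] [Algebra R K] [IsFractionRing R K]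

variable (A R K) in
/-- The inclusion of the polynomial ring in the field of fractions. -/
noncomputable def inc : PC A →+* K := (algebraMap R K).comp (algebraMap (PC A) R)

variable (A R K) in
theorem inc_injective : Function.Injective (inc A R K) :=
  (IsFractionRing.injective R K).comp
    (IsLocalization.injective R (mm A).primeCompl_le_nonZeroDivisors)

theorem prime_TT : Prime (TT D) :=
  (MvPolynomial.prime_C_iff (Fin 2)).2 (Polynomial.prime_C_iff.2 D.irr.prime)

theorem inc_TT_ne_zero : inc A R K (TT D) ≠ 0 := by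
  rw [Ne, map_eq_zero_iff _ (inc_injective A R K)]
  exact (prime_TT D).ne_zero

variable (R K) in
/-- The map `x ↦ (x - a_N) / t ^ (4 N)`, `y_j ↦ y_j / t ^ (5 N)`. -/
noncomputable def chi : PC A →+* K :=
  MvPolynomial.eval₂Hom
    (Polynomial.eval₂RingHom ((inc A R K).comp (MvPolynomial.C.comp Polynomial.C))
      ((inc A R K (MvPolynomial.C Polynomial.X) -
        inc A R K (MvPolynomial.C (Polynomial.C (D.a N)))) / inc A R K (TT D) ^ (4 * N)))
    (fun i => if i = j then inc A R K (MvPolynomial.X i) / inc A R K (TT D) ^ (5 * N)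
      else inc A R K (MvPolynomial.X i))

theorem chi_C_C (c : A) : chi D N j R K (MvPolynomial.C (Polynomial.C c)) =
    inc A R K (MvPolynomial.C (Polynomial.C c)) := by
  simp [chi]

theorem chi_C_X : chi D N j R K (MvPolynomial.C Polynomial.X) =
    (inc A R K (MvPolynomial.C Polynomial.X) -
        inc A R K (MvPolynomial.C (Polynomial.C (D.a N)))) / inc A R K (TT D) ^ (4 * N) := by
  simp [chi]

theorem chi_X (i : Fin 2) : chi D N j R K (MvPolynomial.X i) =
    if i = j then inc A R K (MvPolynomial.X i) / inc A R K (TT D) ^ (5 * N)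
      else inc A R K (MvPolynomial.X i) := by
  simp [chi]

theorem chi_TT : chi D N j R K (TT D) = inc A R K (TT D) := by
  rw [TT, chi_C_C]

theorem chi_comp_phi : (chi D N j R K).comp (phi D N j) = inc A R K := by
  have h0 := inc_TT_ne_zero D (R := R) (K := K)
  apply MvPolynomial.ringHom_ext'
  · apply Polynomial.ringHom_ext
    · intro c
      simp only [RingHom.comp_apply, phi_C, subst_C, chi_C_C]
    · simp only [RingHom.comp_apply, phi_C, subst_X, map_add, map_mul, chi_C_C, chi_C_X]
      have e : inc A R K (MvPolynomial.C (Polynomial.C (D.t ^ (4 * N)))) =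
          inc A R K (TT D) ^ (4 * N) := by
        rw [TT, map_pow, map_pow, map_pow]
      rw [e, mul_div_cancel₀ _ (pow_ne_zero _ h0), sub_add_cancel]
  · intro i
    simp only [RingHom.comp_apply, phi_X]
    split_ifs with h
    · rw [map_mul, map_pow, chi_TT, chi_X, if_pos h, mul_div_cancel₀ _ (pow_ne_zero _ h0)]
    · rw [chi_X, if_neg h]

theorem chi_phi (P : PC A) : chi D N j R K (phi D N j P) = inc A R K P := by
  rw [← RingHom.comp_apply, chi_comp_phi]

theorem phi_TT : phi D N j (TT D) = TT D := by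
  rw [TT, phi_C, subst_C]

/-- Elements that come from the polynomial ring after multiplication by a power of `t`. -/
noncomputable def good : Subring (PC A) where
  carrier := {P | ∃ (n : ℕ) (P' : PC A), TT D ^ n * P = phi D N j P'}
  mul_mem' := by
    rintro P Q ⟨n, P', h⟩ ⟨m, Q', h'⟩
    refine ⟨n + m, P' * Q', ?_⟩
    rw [map_mul, ← h, ← h', pow_add]
    ring
  one_mem' := ⟨0, 1, by simp⟩
  add_mem' := by
    rintro P Q ⟨n, P', h⟩ ⟨m, Q', h'⟩
    refine ⟨n + m, TT D ^ m * P' + TT D ^ n * Q', ?_⟩
    rw [map_add, map_mul, map_mul, map_pow, map_pow, phi_TT, ← h, ← h', pow_add]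
    ring
  zero_mem' := ⟨0, 0, by simp⟩
  neg_mem' := by
    rintro P ⟨n, P', h⟩
    refine ⟨n, -P', ?_⟩
    rw [map_neg, ← h]
    ring

theorem mem_good (P : PC A) : P ∈ good D N j := by
  have hC : ∀ c : A, MvPolynomial.C (Polynomial.C c) ∈ good D N j := fun c =>
    ⟨0, MvPolynomial.C (Polynomial.C c), by rw [phi_C, subst_C, pow_zero, one_mul]⟩
  have hX : MvPolynomial.C Polynomial.X ∈ good D N j := by
    refine ⟨4 * N, MvPolynomial.C (Polynomial.X - Polynomial.C (D.a N)), ?_⟩
    rw [phi_C, map_sub, subst_X, subst_C, add_sub_cancel_right, map_mul, TT, map_pow, map_pow]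
  have hY : ∀ i : Fin 2, MvPolynomial.X i ∈ good D N j := by
    intro i
    by_cases h : i = j
    · exact ⟨5 * N, MvPolynomial.X i, by rw [phi_X, if_pos h]⟩
    · exact ⟨0, MvPolynomial.X i, by rw [phi_X, if_neg h, pow_zero, one_mul]⟩
  have hp : ∀ p : Polynomial A, MvPolynomial.C p ∈ good D N j := by
    intro p
    induction p using Polynomial.induction_on' with
    | add p q hp hq => rw [map_add]; exact (good D N j).add_mem hp hq
    | monomial n a =>
      rw [← Polynomial.C_mul_X_pow_eq_monomial, map_mul, map_pow]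
      exact (good D N j).mul_mem (hC a) ((good D N j).pow_mem hX n)
  induction P using MvPolynomial.induction_on with
  | C p => exact hp p
  | add p q hp hq => exact (good D N j).add_mem hp hq
  | mul_X p i hp => exact (good D N j).mul_mem hp (hY i)

theorem chi_injective : Function.Injective (chi D N j R K) := by
  rw [injective_iff_map_eq_zero]
  intro P hP
  obtain ⟨n, P', h⟩ := mem_good D N j P
  have h1 := congrArg (chi D N j R K) h
  rw [map_mul, hP, mul_zero, chi_phi] at h1
  have h2 : P' = 0 := (map_eq_zero_iff _ (inc_injective A R K)).1 h1.symm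
  rw [h2, map_zero] at h
  rcases mul_eq_zero.1 h with h3 | h3
  · exact absurd h3 (pow_ne_zero _ (prime_TT D).ne_zero)
  · exact h3

theorem not_dvd_phi {s : PC A} (hs : s ∉ mm A) : ¬ TT D ∣ phi D N j s := by
  rintro ⟨c, hc⟩
  apply hs
  rw [mem_mm_iff D]
  have h1 := dvd_ev_phi_sub D N j s
  have h2 : D.t ∣ ev A (phi D N j s) := by
    rw [hc, map_mul]
    apply Dvd.dvd.mul_right
    simp [TT, ev]
  exact (dvd_sub_right h2).1 h1

theorem hR (r : R) : ∃ P Q : PC A, ¬ TT D ∣ Q ∧ algebraMap R K r * chi D N j R K Q =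
    chi D N j R K P := by
  obtain ⟨P, s, h⟩ := IsLocalization.exists_mk'_eq (mm A).primeCompl r
  refine ⟨phi D N j P, phi D N j s, not_dvd_phi D N j s.2, ?_⟩
  rw [chi_phi, chi_phi, ← h, inc, RingHom.comp_apply, RingHom.comp_apply, ← map_mul,
    IsLocalization.mk'_spec]

variable (R K) in
/-- The prime divisor. -/
noncomputable def VV : Subalgebra R K :=
  locSub (TT D) (prime_TT D) (chi D N j R K) (hR D N j)

theorem chi_mem (P : PC A) : chi D N j R K P ∈ VV D N j R K :=
  map_mem_locSub _ _ _ _ P

variable (R K) in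
/-- The map to the prime divisor. -/
noncomputable def chi' : PC A →+* VV D N j R K :=
  (chi D N j R K).codRestrict (VV D N j R K) (chi_mem D N j)

theorem coe_chi' (P : PC A) : (chi' D N j R K P : K) = chi D N j R K P := rfl

theorem dvr_VV : IsDiscreteValuationRing (VV D N j R K) :=
  dvr_locSub (TT D) (prime_TT D) (chi D N j R K) (chi_injective D N j) (hR D N j)

theorem irreducible_chi'_TT : Irreducible (chi' D N j R K (TT D)) :=
  irreducible_locSub (TT D) (prime_TT D) (chi D N j R K) (chi_injective D N j) (hR D N j)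

theorem dvd_of_dvd_chi' (m : ℕ) (P : PC A)
    (h : chi' D N j R K (TT D) ^ m ∣ chi' D N j R K P) : TT D ^ m ∣ P :=
  dvd_of_dvd_locSub (TT D) (prime_TT D) (chi D N j R K) (chi_injective D N j) (hR D N j) m P h

theorem isUnit_chi' {Q : PC A} (hQ : ¬ TT D ∣ Q) : IsUnit (chi' D N j R K Q) :=
  isUnit_locSub (TT D) (prime_TT D) (chi D N j R K) (chi_injective D N j) (hR D N j) hQ

theorem algebraMap_VV (P : PC A) :
    algebraMap R (VV D N j R K) (algebraMap (PC A) R P) = chi' D N j R K (phi D N j P) := by
  apply Subtype.ext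
  rw [coe_chi', chi_phi]
  rfl

theorem chi'_mem_adjoin (P : PC A) : chi' D N j R K P ∈
    Algebra.adjoin R {chi' D N j R K (MvPolynomial.C Polynomial.X),
      chi' D N j R K (MvPolynomial.X j)} := by
  set S := Algebra.adjoin R {chi' D N j R K (MvPolynomial.C Polynomial.X),
      chi' D N j R K (MvPolynomial.X j)} with hS
  have hC : ∀ c : A, chi' D N j R K (MvPolynomial.C (Polynomial.C c)) ∈ S := by
    intro c
    have h := algebraMap_VV D N j (R := R) (K := K) (MvPolynomial.C (Polynomial.C c))
    rw [phi_C, subst_C] at h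
    rw [← h]
    exact S.algebraMap_mem _
  have hX : chi' D N j R K (MvPolynomial.C Polynomial.X) ∈ S :=
    Algebra.subset_adjoin (Or.inl rfl)
  have hY : ∀ i : Fin 2, chi' D N j R K (MvPolynomial.X i) ∈ S := by
    intro i
    by_cases h : i = j
    · rw [h]
      exact Algebra.subset_adjoin (Or.inr rfl)
    · have h2 := algebraMap_VV D N j (R := R) (K := K) (MvPolynomial.X i)
      rw [phi_X, if_neg h] at h2
      rw [← h2]
      exact S.algebraMap_mem _
  have hp : ∀ p : Polynomial A, chi' D N j R K (MvPolynomial.C p) ∈ S := by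
    intro p
    induction p using Polynomial.induction_on' with
    | add p q hp hq => rw [map_add, map_add]; exact S.add_mem hp hq
    | monomial n a =>
      rw [← Polynomial.C_mul_X_pow_eq_monomial, map_mul, map_pow, map_mul, map_pow]
      exact S.mul_mem (hC a) (S.pow_mem hX n)
  induction P using MvPolynomial.induction_on with
  | C p => exact hp p
  | add p q hp hq => rw [map_add]; exact S.add_mem hp hq
  | mul_X p i hp => rw [map_mul]; exact S.mul_mem hp (hY i)

theorem gen_VV (v : VV D N j R K) : ∃ q ∈ Algebra.adjoin R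
    {chi' D N j R K (MvPolynomial.C Polynomial.X), chi' D N j R K (MvPolynomial.X j)},
    IsUnit q ∧ v * q ∈ Algebra.adjoin R
      {chi' D N j R K (MvPolynomial.C Polynomial.X), chi' D N j R K (MvPolynomial.X j)} := by
  obtain ⟨v, P, Q, hQ, hv⟩ := v
  refine ⟨chi' D N j R K Q, chi'_mem_adjoin D N j Q, isUnit_chi' D N j hQ, ?_⟩
  have e : (⟨v, P, Q, hQ, hv⟩ : VV D N j R K) * chi' D N j R K Q = chi' D N j R K P :=
    Subtype.ext hv
  rw [e]
  exact chi'_mem_adjoin D N j P

theorem ess_VV : Algebra.EssFiniteType R (VV D N j R K) := by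
  rw [Algebra.essFiniteType_iff]
  classical
  refine ⟨{chi' D N j R K (MvPolynomial.C Polynomial.X), chi' D N j R K (MvPolynomial.X j)}, ?_⟩
  rw [Finset.coe_pair]
  exact gen_VV D N j

theorem frac_VV : IsFractionRing (VV D N j R K) K := by
  apply IsFractionRing.of_field
  intro z
  obtain ⟨a, b, _, h⟩ := IsFractionRing.div_surjective (A := R) z
  exact ⟨algebraMap R _ a, algebraMap R _ b, h.symm⟩

theorem pow_mem_jacobianIdeal :
    chi' D N j R K (TT D) ^ (9 * N) ∈ jacobianIdeal R (VV D N j R K) := by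
  have h1 : algebraMap R (VV D N j R K) (algebraMap (PC A) R (TT D ^ (4 * N))) *
      chi' D N j R K (MvPolynomial.C Polynomial.X) = algebraMap R (VV D N j R K)
        (algebraMap (PC A) R (MvPolynomial.C (Polynomial.X - Polynomial.C (D.a N)))) := by
    rw [algebraMap_VV, algebraMap_VV, ← map_mul]
    congr 1
    rw [map_pow, phi_TT, phi_C, map_sub, subst_X, subst_C, add_sub_cancel_right, map_mul, TT,
      map_pow, map_pow]
  have h2 : algebraMap R (VV D N j R K) (algebraMap (PC A) R (TT D ^ (5 * N))) *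
      chi' D N j R K (MvPolynomial.X j) = algebraMap R (VV D N j R K)
        (algebraMap (PC A) R (MvPolynomial.X j)) := by
    rw [algebraMap_VV, algebraMap_VV, ← map_mul]
    congr 1
    rw [map_pow, phi_TT, phi_X, if_pos rfl]
  have h3 := mem_jacobianIdeal _ _ _ _ _ _ h1 h2 (gen_VV D N j)
  have e : chi' D N j R K (TT D) ^ (9 * N) =
      algebraMap R (VV D N j R K) (algebraMap (PC A) R (TT D ^ (4 * N))) *
        algebraMap R (VV D N j R K) (algebraMap (PC A) R (TT D ^ (5 * N))) := by
    rw [algebraMap_VV, algebraMap_VV, map_pow (phi D N j), map_pow (phi D N j), phi_TT,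
      ← map_pow, ← map_mul, ← pow_add]
    congr 2
    ring
  rw [e]
  exact h3

/-- The elements `y_j ^ 4` and `x ^ 5 - U` are divisible by `t ^ (20 N)`. -/
theorem pow_dvd_phi_X : TT D ^ (20 * N) ∣ phi D N j (MvPolynomial.X j ^ 4) := by
  rw [map_pow, phi_X, if_pos rfl, mul_pow, ← pow_mul]
  exact (pow_dvd_pow _ (by omega)).mul_right _

theorem pow_dvd_phi_ff [CharP A 5] : TT D ^ (20 * N) ∣ phi D N j (ff D) := by
  rw [ff, phi_C, map_sub, map_pow, subst_X, subst_C, dvd_TT_iff]
  intro m
  rw [MvPolynomial.coeff_C]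
  split_ifs with h
  · rw [add_pow_char, mul_pow, ← map_pow, ← map_pow, ← pow_mul, add_sub_assoc, ← map_sub]
    apply dvd_add
    · refine (Dvd.dvd.mul_right ?_ _)
      apply map_dvd
      exact pow_dvd_pow _ (by omega)
    · apply map_dvd
      rw [← dvd_neg, neg_sub]
      exact D.approx N
  · exact dvd_zero _

end

end Pool.Agent.Lib.MP4583ef
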